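import Mathlib

set_option autoImplicit false
set_option linter.unusedSectionVars false
set_option linter.unusedVariables false

open Finset

namespace Pool.Agent.Lib.MP_f5167d_co.PC

section paths

variable {C : Type*} [DecidableEq C]

/-- simple directed paths from a colour to a colour, inside a set of colours -/
inductive SP (A : C → C → Prop) : Finset C → C → C → Prop
  | nil (S : Finset C) (c : C) (h : c ∈ S) : SP A S c c
  | cons (S : Finset C) (c e d : C) (h : c ∈ S) (a : A c e) (t : SP A (S.erase c) e d) :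
      SP A S c d

variable {A B : C → C → Prop} {S S' U : Finset C} {c d e : C}

theorem SP.start_mem (h : SP A S c d) : c ∈ S := by
  induction h with
  | nil _ _ h => exact h
  | cons _ _ e _ h a t _ => exact h

theorem SP.end_mem (h : SP A S c d) : d ∈ S := by
  induction h with
  | nil _ _ h => exact h
  | cons S c e d h a t ih => exact Finset.mem_of_mem_erase ih

theorem SP.mono (h : SP A S c d) : ∀ {S' : Finset C}, S ⊆ S' → SP A S' c d := by
  induction h with
  | nil S c h => intro S' hs; exact SP.nil S' c (hs h)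
  | cons S c e d h a t ih =>
    intro S' hs
    exact SP.cons S' c e d (hs h) a (ih (Finset.erase_subset_erase c hs))

theorem SP.split (h : SP A S c d) (x : C) : SP A (S.erase x) c d ∨ SP A S x d := by
  induction h with
  | nil S c h =>
    by_cases hx : x = c
    · subst hx; exact Or.inr (SP.nil S x h)
    · exact Or.inl (SP.nil _ c (Finset.mem_erase.2 ⟨fun h => hx h.symm, h⟩))
  | cons S c e d h a t ih =>
    by_cases hx : x = c
    · subst hx; exact Or.inr (SP.cons S x e d h a t)
    · rcases ih with ih | ih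
      · left
        refine SP.cons _ c e d (Finset.mem_erase.2 ⟨fun h => hx h.symm, h⟩) a ?_
        rw [Finset.erase_right_comm]; exact ih
      · right; exact ih.mono (Finset.erase_subset _ _)

theorem SP.head (hc : c ∈ S) (a : A c e) (h : SP A S e d) : SP A S c d := by
  rcases h.split c with h | h
  · exact SP.cons S c e d hc a h
  · exact h

theorem SP.snoc (h : SP A S c d) : ∀ {e : C}, A d e → e ∈ S → SP A S c e := by
  induction h with
  | nil S c h =>
    intro e a he
    exact SP.head h a (SP.nil S e he)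
  | cons S c e' d h a t ih =>
    intro e a' he
    by_cases hec : e = c
    · subst hec; exact SP.nil S e h
    · exact SP.cons S c e' e h a (ih a' (Finset.mem_erase.2 ⟨hec, he⟩))

theorem SP.trans (h : SP A S c d) : ∀ {S' : Finset C} {e : C}, S ⊆ S' → SP A S' d e →
    SP A S' c e := by
  induction h with
  | nil S c h => intro _ _ _ h2; exact h2
  | cons S c e' d h a t ih =>
    intro S' e hs h2
    exact SP.head (hs h) a (ih ((Finset.erase_subset _ _).trans hs) h2)

theorem SP.restrict_start {S0 : Finset C} (h : SP A S c d) : S ⊆ S0 →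
    (∀ e, SP A S0 c e → e ∈ U) → SP A U c d := by
  induction h with
  | nil S c h => intro hs hU; exact SP.nil U c (hU c (SP.nil S0 c (hs h)))
  | cons S c e d h a t ih =>
    intro hs hU
    have hS := (Finset.erase_subset c S).trans hs
    refine SP.head (hU c (SP.nil S0 c (hs h))) a (ih hS ?_)
    intro e' he'
    exact hU e' (SP.head (hs h) a he')

theorem SP.restrict_end (h : SP A S c d) : (∀ e, SP A S e d → e ∈ U) → SP A U c d := by
  induction h with
  | nil S c h => intro hU; exact SP.nil U c (hU c (SP.nil S c h))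
  | cons S c e d h a t ih =>
    intro hU
    refine SP.head (hU c (SP.cons S c e d h a t)) a (ih ?_)
    intro e' he'
    exact hU e' (he'.mono (Finset.erase_subset _ _))

theorem SP.congr (h : SP A S c d) : (∀ a b, a ∈ S → b ∈ S → A a b → B a b) → SP B S c d := by
  induction h with
  | nil S c h => intro _; exact SP.nil S c h
  | cons S c e d h a t ih =>
    intro hAB
    refine SP.cons S c e d h (hAB c e h (Finset.mem_of_mem_erase t.start_mem) a) (ih ?_)
    intro a' b' ha hb
    exact hAB a' b' (Finset.mem_of_mem_erase ha) (Finset.mem_of_mem_erase hb)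

end paths

section colourings

variable {V C : Type*} [Fintype V] [DecidableEq V] [DecidableEq C]

/-- colour class -/
def cls (f : V → C) (c : C) : Finset V := univ.filter (fun v => f v = c)

@[simp] theorem mem_cls {f : V → C} {c : C} {v : V} : v ∈ cls f c ↔ f v = c := by
  simp [cls]

/-- proper colouring -/
def Pr (G : SimpleGraph V) (f : V → C) : Prop := ∀ v w, G.Adj v w → f v ≠ f w

/-- the vertex v can move to the class c -/
def Fr (G : SimpleGraph V) (f : V → C) (v : V) (c : C) : Prop :=
  f v ≠ c ∧ ∀ x, G.Adj v x → f x ≠ c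

/-- arc from the class c to the class d -/
def Arc (G : SimpleGraph V) (f : V → C) (c d : C) : Prop := ∃ v, f v = c ∧ Fr G f v d

theorem card_update {f : V → C} {x : V} {e : C} (b : C) :
    (cls (Function.update f x e) b).card + (if b = f x then 1 else 0)
      = (cls f b).card + (if b = e then 1 else 0) := by
  have h1 : (cls (Function.update f x e) b).erase x = (cls f b).erase x := by
    ext v
    simp only [Finset.mem_erase, mem_cls]
    constructor
    · rintro ⟨h, h'⟩; rw [Function.update_of_ne h] at h'; exact ⟨h, h'⟩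
    · rintro ⟨h, h'⟩; rw [Function.update_of_ne h]; exact ⟨h, h'⟩
  have h2 : (cls (Function.update f x e) b).card
      = ((cls (Function.update f x e) b).erase x).card + (if b = e then 1 else 0) := by
    by_cases hb : b = e
    · have : x ∈ cls (Function.update f x e) b := by simp [hb]
      rw [if_pos hb, Finset.card_erase_add_one this]
    · have : x ∉ cls (Function.update f x e) b := by
        simp only [mem_cls, Function.update_self]; exact fun h => hb h.symm
      rw [if_neg hb, Finset.erase_eq_of_notMem this]; rfl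
  have h3 : (cls f b).card = ((cls f b).erase x).card + (if b = f x then 1 else 0) := by
    by_cases hb : b = f x
    · have : x ∈ cls f b := by simp [hb]
      rw [if_pos hb, Finset.card_erase_add_one this]
    · have : x ∉ cls f b := by
        simp only [mem_cls]; exact fun h => hb h.symm
      rw [if_neg hb, Finset.erase_eq_of_notMem this]; rfl
  rw [h2, h3, h1]
  ring

theorem Pr.update {G : SimpleGraph V} {f : V → C} (hf : Pr G f) {x : V} {e : C}
    (h : ∀ z, G.Adj x z → f z ≠ e) : Pr G (Function.update f x e) := by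
  intro v w hvw
  by_cases hv : v = x
  · subst hv
    by_cases hw : w = v
    · subst hw; exact absurd hvw (G.irrefl)
    · rw [Function.update_self, Function.update_of_ne hw]
      exact fun h' => h w hvw h'.symm
  · by_cases hw : w = x
    · subst hw
      rw [Function.update_self, Function.update_of_ne hv]
      exact h v hvw.symm
    · rw [Function.update_of_ne hv, Function.update_of_ne hw]
      exact hf v w hvw

/-- SHIFT along a simple path -/
theorem shift {G : SimpleGraph V} {f : V → C} (hf : Pr G f) {S : Finset C} {c d : C}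
    (h : SP (Arc G f) S c d) :
    ∃ g : V → C, Pr G g ∧ (∀ v, f v ∉ S → g v = f v) ∧ (∀ v, f v ∈ S → g v ∈ S) ∧
      (∀ v, g v = c → f v = c) ∧ (∀ v, f v = d → g v = d) ∧
      (∀ b, (cls g b).card + (if b = c then 1 else 0)
        = (cls f b).card + (if b = d then 1 else 0)) := by
  induction h with
  | nil S c h =>
    exact ⟨f, hf, fun _ _ => rfl, fun _ h => h, fun _ h => h, fun _ h => h, fun _ => rfl⟩
  | cons S c e d h a t ih =>
    obtain ⟨g, g1, g2, g3, g4, g5, g6⟩ := ih
    obtain ⟨x, hx, hx1, hx2⟩ := a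
    have hcS : c ∉ S.erase c := Finset.notMem_erase _ _
    have heS : e ∈ S.erase c := t.start_mem
    have hdS : d ∈ S.erase c := t.end_mem
    have hgx : g x = c := by
      have := g2 x (by rw [hx]; exact hcS)
      rw [this, hx]
    refine ⟨Function.update g x e, ?_, ?_, ?_, ?_, ?_, ?_⟩
    · exact g1.update (fun z hz hze => hx2 z hz (g4 z hze))
    · intro v hv
      have hvx : v ≠ x := by rintro rfl; exact hv (hx ▸ h)
      rw [Function.update_of_ne hvx]
      exact g2 v (fun h' => hv (Finset.mem_of_mem_erase h'))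
    · intro v hv
      by_cases hvx : v = x
      · subst hvx; rw [Function.update_self]; exact Finset.mem_of_mem_erase heS
      · rw [Function.update_of_ne hvx]
        by_cases hvc : f v = c
        · rw [g2 v (by rw [hvc]; exact hcS)]; exact hv
        · exact Finset.mem_of_mem_erase (g3 v (Finset.mem_erase.2 ⟨hvc, hv⟩))
    · intro v hv
      by_cases hvx : v = x
      · subst hvx; exact hx
      · rw [Function.update_of_ne hvx] at hv
        by_cases hvS : f v ∈ S.erase c
        · exact absurd (g3 v hvS) (by rw [hv]; exact hcS)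
        · rw [← g2 v hvS]; exact hv
    · intro v hv
      have hvx : v ≠ x := by
        rintro rfl
        rw [hx] at hv
        exact hcS (hv ▸ hdS)
      rw [Function.update_of_ne hvx]
      exact g5 v hv
    · intro b
      have h1 := card_update (f := g) (x := x) (e := e) b
      rw [hgx] at h1
      have h2 := g6 b
      omega

end colourings


section main

variable {V C : Type*} [Fintype V] [DecidableEq V] [Fintype C] [DecidableEq C]

open Classical in
/-- neighbourhood -/
noncomputable def nb (G : SimpleGraph V) (v : V) : Finset V := univ.filter (fun x => G.Adj v x)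

@[simp] theorem mem_nb {G : SimpleGraph V} {v x : V} : x ∈ nb G v ↔ G.Adj v x := by
  simp [nb]

/-- near-colouring with surplus class P and deficient class O -/
def Near (G : SimpleGraph V) (t : C → ℕ) (f : V → C) (P O : C) : Prop :=
  Pr G f ∧ P ≠ O ∧ ∀ b, (cls f b).card + (if b = O then 1 else 0)
    = t b + (if b = P then 1 else 0)

open Classical in
/-- the colours which reach O -/
noncomputable def Ts (G : SimpleGraph V) (f : V → C) (O : C) : Finset C :=
  univ.filter (fun c => SP (Arc G f) univ c O)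

open Classical in
/-- the colours reachable from P -/
noncomputable def Rs (G : SimpleGraph V) (f : V → C) (P : C) : Finset C :=
  univ.filter (fun c => SP (Arc G f) univ P c)

open Classical in
/-- the colours of Ts which reach O only through X -/
noncomputable def TX (G : SimpleGraph V) (f : V → C) (O X : C) : Finset C :=
  (Ts G f O).filter (fun c => c ≠ X ∧ ¬ SP (Arc G f) (univ.erase X) c O)

theorem mem_Ts {G : SimpleGraph V} {f : V → C} {O c : C} :
    c ∈ Ts G f O ↔ SP (Arc G f) univ c O := by simp [Ts]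

theorem mem_Rs {G : SimpleGraph V} {f : V → C} {P c : C} :
    c ∈ Rs G f P ↔ SP (Arc G f) univ P c := by simp [Rs]

theorem mem_TX {G : SimpleGraph V} {f : V → C} {O X c : C} :
    c ∈ TX G f O X ↔ c ∈ Ts G f O ∧ c ≠ X ∧ ¬ SP (Arc G f) (univ.erase X) c O := by simp [TX]

theorem SP.cases_head {A : C → C → Prop} {S : Finset C} {c d : C} (h : SP A S c d) :
    c = d ∨ ∃ e, A c e ∧ SP A (S.erase c) e d := by
  induction h with
  | nil _ _ _ => exact Or.inl rfl
  | cons S c e d h a t _ => exact Or.inr ⟨e, a, t⟩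

theorem exists_target {G : SimpleGraph V} {f : V → C} {k : ℕ} (hC : k ≤ Fintype.card C)
    {v y : V} (hd : (nb G v).card + 1 ≤ k) (hy : G.Adj v y) (W : C) :
    ∃ Z, Z ≠ W ∧ ∀ z, G.Adj v z → f z = Z → z = y := by
  have h1 : (((nb G v).erase y).image f).card < ((univ : Finset C).erase W).card := by
    have h2 := Finset.card_image_le (s := (nb G v).erase y) (f := f)
    have h3 : ((nb G v).erase y).card + 1 = (nb G v).card :=
      Finset.card_erase_add_one (mem_nb.2 hy)
    have h4 : ((univ : Finset C).erase W).card + 1 = Fintype.card C :=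
      Finset.card_erase_add_one (Finset.mem_univ W)
    omega
  obtain ⟨Z, hZ1, hZ2⟩ := Finset.exists_mem_notMem_of_card_lt_card h1
  refine ⟨Z, (Finset.mem_erase.1 hZ1).1, ?_⟩
  intro z hz hzZ
  by_contra hne
  exact hZ2 (Finset.mem_image.2 ⟨z, Finset.mem_erase.2 ⟨hne, mem_nb.2 hz⟩, hzZ⟩)

theorem Pr.update2 {G : SimpleGraph V} {f : V → C} (hf : Pr G f) {w y : V} {Z W : C}
    (hZW : Z ≠ W) (h1 : ∀ z, G.Adj w z → f z = Z → z = y)
    (h2 : ∀ z, G.Adj y z → f z = W → z = w) :
    Pr G (Function.update (Function.update f w Z) y W) := by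
  intro a b hab
  by_cases hay : a = y
  · subst hay
    rw [Function.update_self]
    have hba : b ≠ a := fun h => by subst h; exact G.irrefl hab
    rw [Function.update_of_ne hba]
    by_cases hbw : b = w
    · subst hbw; rw [Function.update_self]; exact hZW.symm
    · rw [Function.update_of_ne hbw]
      exact fun h => hbw (h2 b hab h.symm)
  · rw [Function.update_of_ne hay]
    by_cases haw : a = w
    · subst haw
      rw [Function.update_self]
      by_cases hby : b = y
      · subst hby; rw [Function.update_self]; exact hZW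
      · have hba : b ≠ a := fun h => by subst h; exact G.irrefl hab
        rw [Function.update_of_ne hby, Function.update_of_ne hba]
        exact fun h => hby (h1 b hab h.symm)
    · rw [Function.update_of_ne haw]
      by_cases hby : b = y
      · subst hby; rw [Function.update_self]
        exact fun h => haw (h2 a hab.symm h)
      · rw [Function.update_of_ne hby]
        by_cases hbw : b = w
        · subst hbw; rw [Function.update_self]
          exact fun h => hay (h1 a hab.symm h)
        · rw [Function.update_of_ne hbw]; exact hf a b hab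

theorem Arc.congr {G : SimpleGraph V} {f g : V → C} {a b : C} (ha : ∀ v, f v = a → g v = a)
    (hb : ∀ v, g v = b → f v = b) (h : Arc G f a b) : Arc G g a b := by
  obtain ⟨v, hv, hv1, hv2⟩ := h
  refine ⟨v, ha v hv, ?_, ?_⟩
  · rw [ha v hv, ← hv]; exact hv1
  · intro x hx hxb
    exact hv2 x hx (hb x hxb)

/-- the standing assumptions -/
structure Ctx (G : SimpleGraph V) (k s : ℕ) (t : C → ℕ) (f : V → C) (P O : C) : Prop where
  deg : ∀ v, (nb G v).card + 1 ≤ k
  tot : ∑ c, t c = Fintype.card V
  cap : ∀ c, t c ≤ s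
  ks : k * s ≤ Fintype.card V
  hC : k ≤ Fintype.card C
  near : Near G t f P O
  noex : ¬ ∃ g : V → C, Pr G g ∧ ∀ b, (cls g b).card = t b
  max : ∀ (f' : V → C) (P' O' : C), Near G t f' P' O' → (Ts G f' O').card ≤ (Ts G f O).card

variable {G : SimpleGraph V} {k s : ℕ} {t : C → ℕ} {f : V → C} {P O : C}

theorem Ctx.disj (h : Ctx G k s t f P O) {c : C} (hT : c ∈ Ts G f O) (hR : c ∈ Rs G f P) :
    False := by
  rw [mem_Ts] at hT
  rw [mem_Rs] at hR
  obtain ⟨hp, hPO, hcard⟩ := h.near
  obtain ⟨g, g1, _, _, _, _, g6⟩ := shift hp (hR.trans (Finset.Subset.refl _) hT)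
  refine h.noex ⟨g, g1, ?_⟩
  intro b
  have := g6 b
  have := hcard b
  omega

theorem Ctx.O_mem (h : Ctx G k s t f P O) : O ∈ Ts G f O :=
  mem_Ts.2 (SP.nil _ _ (Finset.mem_univ _))

theorem Ctx.P_mem (h : Ctx G k s t f P O) : P ∈ Rs G f P :=
  mem_Rs.2 (SP.nil _ _ (Finset.mem_univ _))

theorem blocked {y : V} {c : C} (h1 : f y ≠ c) (h2 : ¬ Fr G f y c) :
    ∃ x, G.Adj y x ∧ f x = c := by
  by_contra hne
  push Not at hne
  exact h2 ⟨h1, hne⟩

theorem blockR {y : V} {c : C} (hy : f y ∈ Rs G f P) (hc : c ∉ Rs G f P) :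
    ∃ x, G.Adj y x ∧ f x = c := by
  apply blocked (f := f)
  · rintro rfl; exact hc hy
  · intro hF
    exact hc (mem_Rs.2 ((mem_Rs.1 hy).snoc ⟨y, rfl, hF⟩ (Finset.mem_univ _)))

theorem blockT {z : V} {c : C} (hz : f z ∉ Ts G f O) (hc : c ∈ Ts G f O) :
    ∃ x, G.Adj z x ∧ f x = c := by
  apply blocked (f := f)
  · rintro rfl; exact hz hc
  · intro hF
    exact hz (mem_Ts.2 (SP.head (Finset.mem_univ _) ⟨z, rfl, hF⟩ (mem_Ts.1 hc)))

/-- shift the surplus inside R -/
theorem Ctx.toY (h : Ctx G k s t f P O) {y : V} (hy : f y ∈ Rs G f P) :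
    ∃ f1 : V → C, Pr G f1 ∧ (∀ a, a ∉ Rs G f P → ∀ v, f1 v = a ↔ f v = a) ∧
      (∀ v, f v ∈ Rs G f P → f1 v ∈ Rs G f P) ∧ f1 y = f y ∧
      (∀ b, (cls f1 b).card + (if b = O then 1 else 0) = t b + (if b = f y then 1 else 0)) := by
  obtain ⟨hp, hPO, hcard⟩ := h.near
  have hpath : SP (Arc G f) (Rs G f P) P (f y) :=
    (mem_Rs.1 hy).restrict_start (Finset.Subset.refl _) (fun e he => mem_Rs.2 he)
  obtain ⟨g, g1, g2, g3, g4, g5, g6⟩ := shift hp hpath
  refine ⟨g, g1, ?_, g3, g5 y rfl, ?_⟩
  · intro a ha v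
    by_cases hv : f v ∈ Rs G f P
    · constructor
      · intro h'; exact absurd (g3 v hv) (by rw [h']; exact ha)
      · intro h'; exact absurd hv (by rw [h']; exact ha)
    · rw [g2 v hv]
  · intro b
    have := g6 b
    have := hcard b
    omega

theorem Ctx.pathT (h : Ctx G k s t f P O) {W c : C} (hTW : TX G f O W = ∅) (hc : c ∈ Ts G f O)
    (hcW : c ≠ W) : SP (Arc G f) ((Ts G f O).erase W) c O := by
  have h1 : SP (Arc G f) (univ.erase W) c O := by
    by_contra hne
    have : c ∈ TX G f O W := mem_TX.2 ⟨hc, hcW, hne⟩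
    rw [hTW] at this
    simp at this
  refine h1.restrict_end ?_
  intro e he
  exact Finset.mem_erase.2 ⟨(Finset.mem_erase.1 he.start_mem).1,
    mem_Ts.2 (he.mono (Finset.subset_univ _))⟩

/-- Lemma A: a vertex with a solo neighbour is not free for T -/
theorem Ctx.lemA (h : Ctx G k s t f P O) {W c : C} {w y : V} (hTW : TX G f O W = ∅)
    (hW : W ∈ Ts G f O) (hw : f w = W) (hy : f y ∈ Rs G f P)
    (hsolo : ∀ x, G.Adj y x → f x = W → x = w) (hc : c ∈ Ts G f O) (hF : Fr G f w c) :
    False := by
  obtain ⟨f1, p1, e1, r1, y1, c1⟩ := h.toY hy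
  have hcW : c ≠ W := fun h' => hF.1 (by rw [hw, h'])
  have hTR : ∀ a, a ∈ Ts G f O → a ∉ Rs G f P := fun a ha hr => h.disj ha hr
  have hpath : SP (Arc G f1) ((Ts G f O).erase W) c O := by
    refine (h.pathT hTW hc hcW).congr ?_
    intro a b ha hb hab
    exact hab.congr (fun v hv => (e1 a (hTR a (Finset.mem_of_mem_erase ha)) v).2 hv)
      (fun v hv => (e1 b (hTR b (Finset.mem_of_mem_erase hb)) v).1 hv)
  obtain ⟨g, g1, g2, g3, g4, g5, g6⟩ := shift p1 hpath
  have f1w : f1 w = W := (e1 W (hTR W hW) w).2 hw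
  have gw : g w = W := by
    rw [g2 w (by rw [f1w]; exact Finset.notMem_erase _ _), f1w]
  have gy : g y = f y := by
    rw [g2 y, y1]
    rw [y1]
    intro h'
    exact hTR _ (Finset.mem_of_mem_erase h') hy
  have hyw : y ≠ w := by
    rintro rfl
    exact hTR _ (hw ▸ hW) hy
  refine h.noex ⟨Function.update (Function.update g w c) y W, ?_, ?_⟩
  · refine g1.update2 hcW ?_ ?_
    · intro z hz hzc
      exact absurd ((e1 c (hTR c hc) z).1 (g4 z hzc)) (hF.2 z hz)
    · intro z hz hzW
      have h1 : f1 z = W := by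
        by_cases hzS : f1 z ∈ (Ts G f O).erase W
        · exact absurd (g3 z hzS) (by rw [hzW]; exact Finset.notMem_erase _ _)
        · rw [← g2 z hzS]; exact hzW
      exact hsolo z hz ((e1 W (hTR W hW) z).1 h1)
  · intro b
    have k1 := card_update (f := Function.update g w c) (x := y) (e := W) b
    have k2 := card_update (f := g) (x := w) (e := c) b
    rw [Function.update_of_ne hyw, gy] at k1
    rw [gw] at k2
    have k3 := g6 b
    have k4 := c1 b
    omega

/-- Lemma B: the solo neighbours of a vertex form a clique -/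
theorem Ctx.lemB (h : Ctx G k s t f P O) {W : C} {w y y' : V} (hTW : TX G f O W = ∅)
    (hWO : W ≠ O) (hW : W ∈ Ts G f O) (hw : f w = W) (hy : f y ∈ Rs G f P)
    (hyw : G.Adj y w) (hsolo : ∀ x, G.Adj y x → f x = W → x = w)
    (hy' : f y' ∈ Rs G f P) (hsolo' : ∀ x, G.Adj y' x → f x = W → x = w)
    (hne : y ≠ y') (hadj : ¬ G.Adj y y') : False := by
  obtain ⟨f1, p1, e1, r1, y1, c1⟩ := h.toY hy
  have hTR : ∀ a, a ∈ Ts G f O → a ∉ Rs G f P := fun a ha hr => h.disj ha hr
  have f1w : f1 w = W := (e1 W (hTR W hW) w).2 hw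
  obtain ⟨Z, hZW, hZ⟩ := exists_target (G := G) (f := f1) h.hC (h.deg w) hyw.symm W
  have hZT : Z ∉ Ts G f O := by
    intro hZT
    refine h.lemA hTW hW hw hy hsolo hZT ⟨by rw [hw]; exact hZW.symm, ?_⟩
    intro x hx hxZ
    have := hZ x hx ((e1 Z (hTR Z hZT) x).2 hxZ)
    subst this
    exact hTR Z hZT (hxZ ▸ hy)
  have hyw' : y ≠ w := hyw.ne
  have hg1 : ∀ v, v ≠ w → v ≠ y → Function.update (Function.update f1 w Z) y W v = f1 v := by
    intro v h1 h2
    rw [Function.update_of_ne h2, Function.update_of_ne h1]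
  have hgw : Function.update (Function.update f1 w Z) y W w = Z := by
    rw [Function.update_of_ne hyw'.symm, Function.update_self]
  have hgy : Function.update (Function.update f1 w Z) y W y = W := Function.update_self _ _ _
  generalize hg : Function.update (Function.update f1 w Z) y W = g at hg1 hgw hgy
  have hnear : Near G t g Z O := by
    refine ⟨?_, ?_, ?_⟩
    · rw [← hg]
      refine p1.update2 hZW hZ ?_
      intro z hz hzW
      exact hsolo z hz ((e1 W (hTR W hW) z).1 hzW)
    · rintro rfl; exact hZT h.O_mem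
    · intro b
      have k1 := card_update (f := Function.update f1 w Z) (x := y) (e := W) b
      have k2 := card_update (f := f1) (x := w) (e := Z) b
      rw [Function.update_of_ne hyw', y1, hg] at k1
      rw [f1w] at k2
      have k4 := c1 b
      omega
  have hcont : ∀ a, a ∈ Ts G f O → a ≠ W → ∀ v, g v = a ↔ f v = a := by
    intro a ha haW v
    by_cases hvw : v = w
    · subst hvw
      rw [hgw, hw]
      constructor
      · rintro rfl; exact absurd ha hZT
      · rintro rfl; exact absurd rfl haW
    · by_cases hvy : v = y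
      · subst hvy
        rw [hgy]
        constructor
        · rintro rfl; exact absurd rfl haW
        · intro h'; exact absurd (h' ▸ hy) (hTR a ha)
      · rw [hg1 v hvw hvy]; exact e1 a (hTR a ha) v
  have hT1 : ∀ c, c ∈ Ts G f O → c ≠ W → c ∈ Ts G g O := by
    intro c hc hcW
    rw [mem_Ts]
    refine SP.mono (S := (Ts G f O).erase W) ?_ (Finset.subset_univ _)
    refine (h.pathT hTW hc hcW).congr ?_
    intro a b ha hb hab
    rw [Finset.mem_erase] at ha hb
    exact hab.congr (fun v hv => (hcont a ha.2 ha.1 v).2 hv)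
      (fun v hv => (hcont b hb.2 hb.1 v).1 hv)
  have hT2 : W ∈ Ts G g O := by
    rcases (mem_Ts.1 hW).cases_head with h1 | ⟨e, ⟨x, hx, hxF⟩, he⟩
    · exact absurd h1 hWO
    · have heT : e ∈ Ts G f O := mem_Ts.2 (he.mono (Finset.subset_univ _))
      have heW : e ≠ W := (Finset.mem_erase.1 he.start_mem).1
      have hxw : x ≠ w := by
        rintro rfl
        exact h.lemA hTW hW hw hy hsolo heT hxF
      have hxy : x ≠ y := by
        rintro rfl
        exact hTR W hW (hx ▸ hy)
      have hgx : g x = W := by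
        rw [hg1 x hxw hxy]; exact (e1 W (hTR W hW) x).2 hx
      rw [mem_Ts]
      refine SP.head (Finset.mem_univ _) ⟨x, hgx, ?_, ?_⟩ (mem_Ts.1 (hT1 e heT heW))
      · rw [hgx]; exact heW.symm
      · intro z hz hze
        exact hxF.2 z hz ((hcont e heT heW z).1 hze)
  have hT3 : g y' ∈ Ts G g O := by
    have hy'w : y' ≠ w := by
      rintro rfl
      exact hTR W hW (hw ▸ hy')
    have hgy' : g y' ∈ Rs G f P := by
      rw [hg1 y' hy'w hne.symm]; exact r1 y' hy'
    rw [mem_Ts]
    refine SP.head (Finset.mem_univ _) ⟨y', rfl, ?_, ?_⟩ (mem_Ts.1 hT2)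
    · intro h'; rw [h'] at hgy'; exact hTR W hW hgy'
    · intro x hx hxW
      have hxy : x ≠ y := by
        rintro rfl
        exact hadj hx.symm
      have hxw : x ≠ w := by
        rintro rfl
        rw [hgw] at hxW
        exact hZW hxW
      rw [hg1 x hxw hxy] at hxW
      exact hxw (hsolo' x hx ((e1 W (hTR W hW) x).1 hxW))
  have hT4 : g y' ∉ Ts G f O := by
    have hy'w : y' ≠ w := by
      rintro rfl
      exact hTR W hW (hw ▸ hy')
    intro h'
    refine h.disj h' ?_
    rw [hg1 y' hy'w hne.symm]; exact r1 y' hy'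
  have hsub : insert (g y') (Ts G f O) ⊆ Ts G g O := by
    intro c hc
    rcases Finset.mem_insert.1 hc with rfl | hc
    · exact hT3
    · by_cases hcW : c = W
      · subst hcW; exact hT2
      · exact hT1 c hc hcW
  have hcard := Finset.card_le_card hsub
  rw [Finset.card_insert_of_notMem hT4] at hcard
  have := h.max g Z O hnear
  omega

end main


section count

variable {V C : Type*} [Fintype V] [DecidableEq V] [Fintype C] [DecidableEq C]

/-- number of neighbours in a colour class -/
noncomputable def nc (G : SimpleGraph V) (f : V → C) (v : V) (c : C) : ℕ :=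
  ((nb G v).filter (fun x => f x = c)).card

/-- vertices whose colour is in S -/
def VS (f : V → C) (S : Finset C) : Finset V := univ.filter (fun v => f v ∈ S)

@[simp] theorem mem_VS {f : V → C} {S : Finset C} {v : V} : v ∈ VS f S ↔ f v ∈ S := by
  simp [VS]

theorem card_VS (f : V → C) (S : Finset C) : (VS f S).card = ∑ c ∈ S, (cls f c).card := by
  rw [Finset.card_eq_sum_card_fiberwise (f := f) (s := VS f S) (t := S)
    (fun v hv => by simpa using hv)]
  refine Finset.sum_congr rfl (fun c hc => ?_)
  congr 1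
  ext v
  simp only [Finset.mem_filter, mem_VS, mem_cls]
  constructor
  · exact fun h => h.2
  · rintro rfl; exact ⟨hc, rfl⟩

theorem dS_eq (G : SimpleGraph V) (f : V → C) (v : V) (S : Finset C) :
    ((nb G v).filter (fun x => f x ∈ S)).card = ∑ c ∈ S, nc G f v c := by
  rw [Finset.card_eq_sum_card_fiberwise (f := f) (s := (nb G v).filter (fun x => f x ∈ S)) (t := S)
    (fun v hv => by simpa using (Finset.mem_filter.1 hv).2)]
  refine Finset.sum_congr rfl (fun c hc => ?_)
  unfold nc
  congr 1
  ext x
  simp only [Finset.mem_filter]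
  constructor
  · exact fun h => ⟨h.1.1, h.2⟩
  · rintro ⟨h1, rfl⟩; exact ⟨⟨h1, hc⟩, rfl⟩

theorem deg_eq (G : SimpleGraph V) (f : V → C) (v : V) (S : Finset C) :
    (nb G v).card = ∑ c ∈ S, nc G f v c + ((nb G v).filter (fun x => f x ∉ S)).card := by
  rw [← dS_eq]
  exact (Finset.card_filter_add_card_filter_not (s := nb G v) (fun x => f x ∈ S)).symm

theorem solo_uniq {G : SimpleGraph V} {f : V → C} {y w : V} (h1 : nc G f y (f w) = 1)
    (h2 : G.Adj y w) : ∀ x, G.Adj y x → f x = f w → x = w := by
  intro x hx hxw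
  unfold nc at h1
  rw [Finset.card_eq_one] at h1
  obtain ⟨a, ha⟩ := h1
  have e1 : x ∈ (nb G y).filter (fun x => f x = f w) := by simp [hx, hxw]
  have e2 : w ∈ (nb G y).filter (fun x => f x = f w) := by simp [h2]
  rw [ha, Finset.mem_singleton] at e1 e2
  rw [e1, e2]

open Classical in
/-- the solo neighbours of w in R -/
noncomputable def Sw (G : SimpleGraph V) (f : V → C) (P : C) (w : V) : Finset V :=
  univ.filter (fun y => f y ∈ Rs G f P ∧ G.Adj y w ∧ nc G f y (f w) = 1)

theorem mem_Sw {G : SimpleGraph V} {f : V → C} {P : C} {w y : V} :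
    y ∈ Sw G f P w ↔ f y ∈ Rs G f P ∧ G.Adj y w ∧ nc G f y (f w) = 1 := by simp [Sw]

theorem nc_pos {G : SimpleGraph V} {f : V → C} {y : V} {c : C}
    (h : ∃ x, G.Adj y x ∧ f x = c) : 1 ≤ nc G f y c := by
  obtain ⟨x, hx, hxc⟩ := h
  refine Finset.card_pos.2 ⟨x, ?_⟩
  simp [hx, hxc]

variable {G : SimpleGraph V} {k s : ℕ} {t : C → ℕ} {f : V → C} {P O : C}

/-- size of V_T -/
theorem Ctx.card_T (h : Ctx G k s t f P O) :
    (VS f (Ts G f O)).card + 1 ≤ (Ts G f O).card * s := by
  have h1 : ∑ c ∈ Ts G f O, ((cls f c).card + (if c = O then 1 else 0))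
      = ∑ c ∈ Ts G f O, (t c + (if c = P then 1 else 0)) :=
    Finset.sum_congr rfl (fun c _ => h.near.2.2 c)
  rw [Finset.sum_add_distrib, Finset.sum_add_distrib, Finset.sum_ite_eq', if_pos h.O_mem,
    Finset.sum_ite_eq', if_neg (fun h' => h.disj h' h.P_mem), ← card_VS] at h1
  have h2 : ∑ c ∈ Ts G f O, t c ≤ (Ts G f O).card * s := by
    have := Finset.sum_le_card_nsmul (Ts G f O) t s (fun c _ => h.cap c)
    simpa using this
  omega

theorem Ctx.card_Q (h : Ctx G k s t f P O) :
    (VS f (Ts G f O ∪ Rs G f P)ᶜ).card ≤ ((Ts G f O ∪ Rs G f P)ᶜ).card * s := by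
  have h1 : ∑ c ∈ (Ts G f O ∪ Rs G f P)ᶜ, (cls f c).card
      = ∑ c ∈ (Ts G f O ∪ Rs G f P)ᶜ, t c := by
    refine Finset.sum_congr rfl (fun c hc => ?_)
    rw [Finset.mem_compl, Finset.mem_union, not_or] at hc
    have h2 := h.near.2.2 c
    rw [if_neg (fun h' => hc.1 (by rw [h']; exact h.O_mem)),
      if_neg (fun h' => hc.2 (by rw [h']; exact h.P_mem))] at h2
    simpa using h2
  rw [card_VS, h1]
  have := Finset.sum_le_card_nsmul ((Ts G f O ∪ Rs G f P)ᶜ) t s (fun c _ => h.cap c)
  simpa using this

theorem Ctx.card_all (h : Ctx G k s t f P O) :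
    Fintype.card V = (VS f (Ts G f O)).card + (VS f (Rs G f P)).card
      + (VS f (Ts G f O ∪ Rs G f P)ᶜ).card := by
  have hd : Disjoint (Ts G f O) (Rs G f P) :=
    Finset.disjoint_left.2 (fun c h1 h2 => h.disj h1 h2)
  have h1 := card_VS f (univ : Finset C)
  have h2 : VS f (univ : Finset C) = univ := by ext v; simp
  rw [h2, Finset.card_univ] at h1
  rw [h1, card_VS, card_VS, card_VS, ← Finset.sum_union hd, Finset.sum_add_sum_compl]

/-- degrees of the vertices of V_R -/
theorem Ctx.degR (h : Ctx G k s t f P O) {y : V} (hy : f y ∈ Rs G f P) :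
    (1 + ∑ c ∈ Rs G f P, nc G f y c) + ((Ts G f O ∪ Rs G f P)ᶜ).card + 2 * (Ts G f O).card
      ≤ k + ((Ts G f O).filter (fun c => nc G f y c = 1)).card := by
  have hd : Disjoint (Ts G f O) (Rs G f P) :=
    Finset.disjoint_left.2 (fun c h1 h2 => h.disj h1 h2)
  have hTR : ∀ a, a ∈ Ts G f O → a ∉ Rs G f P := fun a ha hr => h.disj ha hr
  have h1 : (nb G y).card = ∑ c ∈ Ts G f O, nc G f y c + ∑ c ∈ Rs G f P, nc G f y c
      + ∑ c ∈ (Ts G f O ∪ Rs G f P)ᶜ, nc G f y c := by
    rw [deg_eq G f y univ, ← Finset.sum_union hd, Finset.sum_add_sum_compl]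
    simp
  have h2 : ((Ts G f O ∪ Rs G f P)ᶜ).card ≤ ∑ c ∈ (Ts G f O ∪ Rs G f P)ᶜ, nc G f y c := by
    rw [Finset.card_eq_sum_ones]
    refine Finset.sum_le_sum (fun c hc => ?_)
    rw [Finset.mem_compl, Finset.mem_union, not_or] at hc
    exact nc_pos (blockR hy hc.2)
  have h3 : 2 * (Ts G f O).card ≤ ∑ c ∈ Ts G f O, nc G f y c
      + ((Ts G f O).filter (fun c => nc G f y c = 1)).card := by
    rw [Finset.card_filter, ← Finset.sum_add_distrib, mul_comm, ← smul_eq_mul,
      ← Finset.sum_const]
    refine Finset.sum_le_sum (fun c hc => ?_)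
    have := nc_pos (G := G) (f := f) (blockR hy (hTR c hc))
    split_ifs <;> omega
  have := h.deg y
  omega

/-- degrees of the vertices of V_T -/
theorem Ctx.degT (h : Ctx G k s t f P O) {w : V} (hw : f w ∈ Ts G f O) {p : ℕ}
    (hp : ∀ F : Finset C, (∀ c ∈ F, c ∈ Ts G f O ∧ Fr G f w c) → F.card ≤ p) :
    ((nb G w).filter (fun x => f x ∉ Ts G f O)).card + (Ts G f O).card ≤ k + p := by
  classical
  have h1 := deg_eq G f w (Ts G f O)
  have h2 : (Ts G f O).card ≤ ∑ c ∈ Ts G f O, nc G f w c + 1
      + ((Ts G f O).filter (fun c => Fr G f w c)).card := by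
    have e1 : ∑ c ∈ Ts G f O, (if c = f w then 1 else 0) = 1 := by
      rw [Finset.sum_ite_eq', if_pos hw]
    rw [← e1, Finset.card_filter, ← Finset.sum_add_distrib, ← Finset.sum_add_distrib,
      Finset.card_eq_sum_ones]
    refine Finset.sum_le_sum (fun c hc => ?_)
    by_cases hcw : c = f w
    · rw [if_pos hcw]; omega
    · by_cases hF : Fr G f w c
      · rw [if_pos hF]; omega
      · have := nc_pos (G := G) (f := f) (blocked (fun h' => hcw h'.symm) hF)
        omega
  have h3 := hp ((Ts G f O).filter (fun c => Fr G f w c))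
    (fun c hc => by simpa using hc)
  have := h.deg w
  omega

theorem Ctx.B0 (h : Ctx G k s t f P O) : (TX G f O O).Nonempty := by
  by_contra hne
  rw [Finset.not_nonempty_iff_eq_empty] at hne
  have hT : ∀ c, c ∈ Ts G f O → c = O := by
    intro c hc
    by_contra hcO
    have : c ∈ TX G f O O := mem_TX.2 ⟨hc, hcO, fun h' => by
      have := h'.end_mem
      simp at this⟩
    rw [hne] at this
    simp at this
  have h1 : (univ.filter (fun v => f v ≠ O)) ⊆ (cls f O).biUnion (fun w => nb G w) := by
    intro v hv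
    simp only [Finset.mem_filter, Finset.mem_univ, true_and] at hv
    obtain ⟨x, hx, hxO⟩ := blockT (G := G) (f := f) (O := O) (z := v)
      (fun h' => hv (hT _ h')) h.O_mem
    rw [Finset.mem_biUnion]
    exact ⟨x, mem_cls.2 hxO, mem_nb.2 hx.symm⟩
  have h2 : (univ.filter (fun v => f v ≠ O)).card ≤ (cls f O).card * (k - 1) := by
    refine (Finset.card_le_card h1).trans (Finset.card_biUnion_le_card_mul _ _ _ ?_)
    intro w _
    have := h.deg w
    omega
  have h3 : (cls f O).card + (univ.filter (fun v => f v ≠ O)).card = Fintype.card V := by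
    have := Finset.card_filter_add_card_filter_not (s := (univ : Finset V)) (fun x => f x = O)
    rw [Finset.card_univ] at this
    exact this
  have h4 := h.near.2.2 O
  rw [if_pos rfl, if_neg (fun h' => h.near.2.1 h'.symm)] at h4
  have h5 := h.cap O
  have h6 := h.ks
  have hV : Nonempty V := by
    have := h.near.2.2 P
    rw [if_neg h.near.2.1, if_pos rfl] at this
    have hc : 0 < (cls f P).card := by omega
    obtain ⟨v, _⟩ := Finset.card_pos.1 hc
    exact ⟨v⟩
  obtain ⟨v0⟩ := hV
  have h7 := h.deg v0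
  obtain ⟨k', rfl⟩ : ∃ k', k = k' + 1 := ⟨k - 1, by omega⟩
  simp only [Nat.add_sub_cancel] at h2
  nlinarith

theorem Ctx.B1 (h : Ctx G k s t f P O) : ∃ X0, (TX G f O X0).Nonempty ∧
    ∀ W ∈ TX G f O X0, TX G f O W = ∅ ∧ W ≠ O := by
  classical
  have hne : (univ.filter (fun X => (TX G f O X).Nonempty)).Nonempty :=
    ⟨O, by simpa using h.B0⟩
  obtain ⟨X0, hX1, hX2⟩ := Finset.exists_min_image _ (fun X => (TX G f O X).card) hne
  simp only [Finset.mem_filter, Finset.mem_univ, true_and] at hX1 hX2
  refine ⟨X0, hX1, ?_⟩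
  intro W hW
  obtain ⟨hWT, hWX, hWn⟩ := mem_TX.1 hW
  have hWO : W ≠ O := by
    rintro rfl
    exact hWn (SP.nil _ _ (Finset.mem_erase.2 ⟨hWX, Finset.mem_univ _⟩))
  refine ⟨?_, hWO⟩
  by_contra hWne
  rw [← Ne, ← Finset.nonempty_iff_ne_empty] at hWne
  have hsub : TX G f O W ⊆ TX G f O X0 := by
    intro Y hY
    obtain ⟨hYT, hYW, hYn⟩ := mem_TX.1 hY
    rw [mem_TX]
    refine ⟨hYT, ?_, ?_⟩
    · rintro rfl
      rcases (mem_Ts.1 hYT).cases_head with h1 | ⟨e, he, he'⟩
      · subst h1
        exact hYn (SP.nil _ _ (Finset.mem_erase.2 ⟨hYW, Finset.mem_univ _⟩))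
      · rcases he'.split W with h2 | h2
        · refine hYn (SP.cons _ _ e _ (Finset.mem_erase.2 ⟨hYW, Finset.mem_univ _⟩) he ?_)
          rw [Finset.erase_right_comm]; exact h2
        · exact hWn h2
    · intro h1
      rcases h1.split W with h2 | h2
      · exact hYn (h2.mono (Finset.erase_subset_erase _ (Finset.subset_univ _)))
      · exact hWn h2
  have hss : TX G f O W ⊂ TX G f O X0 := by
    rw [Finset.ssubset_iff_of_subset hsub]
    refine ⟨W, hW, ?_⟩
    intro h'
    exact (mem_TX.1 h').2.1 rfl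
  have := Finset.card_lt_card hss
  have := hX2 W hWne
  omega

/-- free colours of a vertex of T_X0 -/
theorem Ctx.B2 (h : Ctx G k s t f P O) {X0 : C} {w : V} (hw : f w ∈ TX G f O X0)
    (F : Finset C) (hF : ∀ c ∈ F, c ∈ Ts G f O ∧ Fr G f w c) : F.card ≤ (TX G f O X0).card := by
  have hsub : F ⊆ (insert X0 (TX G f O X0)).erase (f w) := by
    intro c hc
    obtain ⟨hcT, hcF⟩ := hF c hc
    obtain ⟨hwT, hwX, hwn⟩ := mem_TX.1 hw
    refine Finset.mem_erase.2 ⟨fun h' => hcF.1 h'.symm, ?_⟩
    rw [Finset.mem_insert]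
    by_contra hne
    rw [not_or] at hne
    refine hne.2 (mem_TX.2 ⟨hcT, hne.1, ?_⟩)
    intro h1
    exact hwn (SP.head (Finset.mem_erase.2 ⟨hwX, Finset.mem_univ _⟩) ⟨w, rfl, hcF⟩ h1)
  refine (Finset.card_le_card hsub).trans ?_
  have hX : X0 ∉ TX G f O X0 := fun h' => (mem_TX.1 h').2.1 rfl
  rw [Finset.card_erase_of_mem (Finset.mem_insert_of_mem hw), Finset.card_insert_of_notMem hX]
  omega

/-- size of a solo set -/
theorem Ctx.soloSize (h : Ctx G k s t f P O) {X0 : C}
    (hX0 : ∀ W ∈ TX G f O X0, TX G f O W = ∅ ∧ W ≠ O) {w y : V} (hw : f w ∈ TX G f O X0)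
    (hy : y ∈ Sw G f P w) : (Sw G f P w).card ≤ 1 + ∑ c ∈ Rs G f P, nc G f y c := by
  obtain ⟨hTW, hWO⟩ := hX0 _ hw
  have hWT := (mem_TX.1 hw).1
  have hsub : Sw G f P w ⊆ insert y ((nb G y).filter (fun x => f x ∈ Rs G f P)) := by
    intro y' hy'
    obtain ⟨a1, a2, a3⟩ := mem_Sw.1 hy
    obtain ⟨b1, b2, b3⟩ := mem_Sw.1 hy'
    rw [Finset.mem_insert, Finset.mem_filter, mem_nb]
    by_contra hne
    rw [not_or, not_and] at hne
    exact h.lemB hTW hWO hWT rfl a1 a2 (solo_uniq a3 a2) b1 (solo_uniq b3 b2)
      (fun h' => hne.1 h'.symm) (fun h' => hne.2 h' b1)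
  refine (Finset.card_le_card hsub).trans ((Finset.card_insert_le _ _).trans ?_)
  rw [dS_eq]
  omega

theorem double_count (G : SimpleGraph V) (f : V → C) (W : C) (T : Finset C) :
    ∑ w ∈ cls f W, ((nb G w).filter (fun x => f x ∉ T)).card
      = ∑ v ∈ univ.filter (fun v => f v ∉ T), nc G f v W := by
  classical
  have h1 : ∀ w, ((nb G w).filter (fun x => f x ∉ T)).card
      = ∑ v ∈ univ.filter (fun v => f v ∉ T), if G.Adj v w then 1 else 0 := by
    intro w
    rw [← Finset.card_filter]
    congr 1
    ext x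
    simp only [Finset.mem_filter, mem_nb, Finset.mem_univ, true_and]
    constructor
    · exact fun h => ⟨h.2, h.1.symm⟩
    · exact fun h => ⟨h.2.symm, h.1⟩
  have h2 : ∀ v, nc G f v W = ∑ w ∈ cls f W, if G.Adj v w then 1 else 0 := by
    intro v
    rw [← Finset.card_filter]
    unfold nc
    congr 1
    ext x
    simp only [Finset.mem_filter, mem_nb, mem_cls]
    tauto
  simp only [h1, h2]
  rw [Finset.sum_comm]

/-- the whole contradiction -/
theorem Ctx.false (h : Ctx G k s t f P O) : False := by
  classical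
  obtain ⟨X0, ⟨W, hW⟩, hX0⟩ := h.B1
  have hTR : ∀ a, a ∈ Ts G f O → a ∉ Rs G f P := fun a ha hr => h.disj ha hr
  -- u
  obtain ⟨y0, hy0⟩ : ∃ y0, f y0 = P := by
    have := h.near.2.2 P
    rw [if_neg h.near.2.1, if_pos rfl] at this
    have hc : 0 < (cls f P).card := by omega
    obtain ⟨v, hv⟩ := Finset.card_pos.1 hc
    exact ⟨v, mem_cls.1 hv⟩
  have hDu : ∀ y, f y ∈ Rs G f P → (1 + ∑ c ∈ Rs G f P, nc G f y c)
      + ((Ts G f O ∪ Rs G f P)ᶜ).card + (Ts G f O).card ≤ k := by
    intro y hy
    have h1 := h.degR hy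
    have h2 := Finset.card_filter_le (Ts G f O) (fun c => nc G f y c = 1)
    omega
  obtain ⟨u, hu⟩ : ∃ u, k = u + ((Ts G f O ∪ Rs G f P)ᶜ).card + (Ts G f O).card := by
    have := hDu y0 (by rw [hy0]; exact h.P_mem)
    exact ⟨k - (((Ts G f O ∪ Rs G f P)ᶜ).card + (Ts G f O).card), by omega⟩
  have hu1 : 1 ≤ u := by
    have := hDu y0 (by rw [hy0]; exact h.P_mem)
    omega
  have hDu' : ∀ y, f y ∈ Rs G f P → (1 + ∑ c ∈ Rs G f P, nc G f y c) ≤ u := by
    intro y hy
    have := hDu y hy
    omega
  generalize hm : ((Ts G f O ∪ Rs G f P)ᶜ).card = m at hu hDu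
  generalize hκ : (Ts G f O).card = κ at hu hDu
  generalize ht0 : (TX G f O X0).card = t0
  -- sizes
  have hVT := h.card_T
  have hVQ := h.card_Q
  have hVall := h.card_all
  have hks := h.ks
  rw [hκ] at hVT
  rw [hm] at hVQ
  have hX : (univ.filter (fun v => f v ∉ Ts G f O)).card
      = (VS f (Rs G f P)).card + (VS f (Ts G f O ∪ Rs G f P)ᶜ).card := by
    have e1 := Finset.card_filter_add_card_filter_not (s := (univ : Finset V))
      (fun x => f x ∈ Ts G f O)
    rw [Finset.card_univ, hVall] at e1
    have e2 : (univ.filter (fun x => f x ∈ Ts G f O)).card = (VS f (Ts G f O)).card := rfl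
    omega
  have hXs : (u + m) * s + 1 ≤ (univ.filter (fun v => f v ∉ Ts G f O)).card := by
    rw [hX]
    rw [hu] at hks
    have : (u + m + κ) * s = (u + m) * s + κ * s := by ring
    omega
  have hVR : u * s + 1 ≤ (VS f (Rs G f P)).card := by
    have : (u + m) * s = u * s + m * s := by ring
    omega
  -- B4
  have hWT := (mem_TX.1 hW).1
  have hWs : (cls f W).card ≤ s := by
    have h1 := h.near.2.2 W
    rw [if_neg (hX0 W hW).2, if_neg (fun h' => hTR W hWT (by rw [h']; exact h.P_mem))] at h1
    have := h.cap W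
    omega
  have hB4 : u < t0 := by
    have a1 : ∀ w ∈ cls f W, ((nb G w).filter (fun x => f x ∉ Ts G f O)).card + κ
        ≤ k + (if (Sw G f P w).Nonempty then 0 else t0) := by
      intro w hw
      rw [mem_cls] at hw
      rw [← hκ]
      apply h.degT (by rw [hw]; exact hWT)
      split_ifs with hS
      · obtain ⟨y, hy⟩ := hS
        obtain ⟨b1, b2, b3⟩ := mem_Sw.1 hy
        intro F hF
        rw [Nat.le_zero, Finset.card_eq_zero, Finset.eq_empty_iff_forall_notMem]
        intro c hc
        obtain ⟨hcT, hcF⟩ := hF c hc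
        have hu2 := solo_uniq b3 b2
        rw [hw] at hu2
        exact h.lemA (hX0 W hW).1 hWT hw b1 hu2 hcT hcF
      · intro F hF
        rw [← ht0]
        exact h.B2 (by rw [hw]; exact hW) F hF
    have a2 : ∑ w ∈ cls f W, ((nb G w).filter (fun x => f x ∉ Ts G f O)).card
        + (cls f W).card * κ ≤ (cls f W).card * k
        + ((cls f W).filter (fun w => ¬ (Sw G f P w).Nonempty)).card * t0 := by
      have e1 := Finset.sum_le_sum a1
      rw [Finset.sum_add_distrib, Finset.sum_add_distrib, Finset.sum_const, Finset.sum_const,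
        smul_eq_mul, smul_eq_mul] at e1
      have e2 : ∑ w ∈ cls f W, (if (Sw G f P w).Nonempty then 0 else t0)
          = ((cls f W).filter (fun w => ¬ (Sw G f P w).Nonempty)).card * t0 := by
        rw [Finset.card_filter, Finset.sum_mul]
        refine Finset.sum_congr rfl (fun w _ => ?_)
        split_ifs <;> simp_all
      rw [e2] at e1
      exact e1
    have a3 : (univ.filter (fun v => f v ∉ Ts G f O)).card
        + ((VS f (Rs G f P)).filter (fun v => nc G f v W ≠ 1)).card
        ≤ ∑ v ∈ univ.filter (fun v => f v ∉ Ts G f O), nc G f v W := by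
      have e1 : ((VS f (Rs G f P)).filter (fun v => nc G f v W ≠ 1))
          = (univ.filter (fun v => f v ∉ Ts G f O)).filter
            (fun v => f v ∈ Rs G f P ∧ nc G f v W ≠ 1) := by
        ext v
        simp only [Finset.mem_filter, mem_VS, Finset.mem_univ, true_and]
        constructor
        · rintro ⟨q1, q2⟩
          exact ⟨fun q3 => hTR _ q3 q1, q1, q2⟩
        · rintro ⟨_, q1, q2⟩
          exact ⟨q1, q2⟩
      rw [e1, Finset.card_filter (fun v => f v ∈ Rs G f P ∧ nc G f v W ≠ 1),
        Finset.card_eq_sum_ones, ← Finset.sum_add_distrib]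
      refine Finset.sum_le_sum (fun v hv => ?_)
      simp only [Finset.mem_filter, Finset.mem_univ, true_and] at hv
      have q := nc_pos (G := G) (f := f) (blockT hv hWT)
      split_ifs with hc
      · have := hc.2
        omega
      · omega
    have a4 : ((VS f (Rs G f P)).filter (fun v => nc G f v W = 1)).card
        ≤ ((cls f W).filter (fun w => (Sw G f P w).Nonempty)).card * u := by
      have e1 : (VS f (Rs G f P)).filter (fun v => nc G f v W = 1)
          ⊆ ((cls f W).filter (fun w => (Sw G f P w).Nonempty)).biUnion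
            (fun w => Sw G f P w) := by
        intro v hv
        simp only [Finset.mem_filter, mem_VS] at hv
        obtain ⟨x, hx, hxW⟩ := blockR (G := G) (f := f) (P := P) (y := v) hv.1 (hTR W hWT)
        have hvx : v ∈ Sw G f P x := mem_Sw.2 ⟨hv.1, hx, by rw [hxW]; exact hv.2⟩
        rw [Finset.mem_biUnion]
        exact ⟨x, Finset.mem_filter.2 ⟨mem_cls.2 hxW, ⟨v, hvx⟩⟩, hvx⟩
      refine (Finset.card_le_card e1).trans (Finset.card_biUnion_le_card_mul _ _ _ ?_)
      intro w hw
      rw [Finset.mem_filter, mem_cls] at hw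
      obtain ⟨hw1, ⟨y, hy⟩⟩ := hw
      have e2 := h.soloSize hX0 (by rw [hw1]; exact hW) hy
      exact e2.trans (hDu' y (mem_Sw.1 hy).1)
    have a5 : ((cls f W).filter (fun w => (Sw G f P w).Nonempty)).card
        + ((cls f W).filter (fun w => ¬ (Sw G f P w).Nonempty)).card = (cls f W).card :=
      Finset.card_filter_add_card_filter_not _
    have a6 : ((VS f (Rs G f P)).filter (fun v => nc G f v W = 1)).card
        + ((VS f (Rs G f P)).filter (fun v => nc G f v W ≠ 1)).card
        = (VS f (Rs G f P)).card :=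
      Finset.card_filter_add_card_filter_not _
    rw [double_count] at a2
    generalize ((cls f W).filter (fun w => (Sw G f P w).Nonempty)).card = s0 at a4 a5
    generalize ((cls f W).filter (fun w => ¬ (Sw G f P w).Nonempty)).card = e0 at a2 a5
    generalize ((VS f (Rs G f P)).filter (fun v => nc G f v W = 1)).card = r1 at a4 a6
    generalize ((VS f (Rs G f P)).filter (fun v => nc G f v W ≠ 1)).card = r2 at a3 a6
    generalize (∑ v ∈ univ.filter (fun v => f v ∉ Ts G f O), nc G f v W) = sg at a2 a3
    generalize (univ.filter (fun v => f v ∉ Ts G f O)).card = x at a3 hXs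
    generalize (VS f (Rs G f P)).card = r at a6 hVR
    generalize (cls f W).card = w0 at a2 a5 hWs
    by_contra hlt
    rw [not_lt] at hlt
    rw [hu] at a2
    have b1 : (u + m) * w0 ≤ (u + m) * s := Nat.mul_le_mul_left _ hWs
    have b2 : u * w0 ≤ u * s := Nat.mul_le_mul_left _ hWs
    have b3 : e0 * t0 ≤ e0 * u := Nat.mul_le_mul_left _ hlt
    have b4 : w0 * (u + m + κ) = (u + m) * w0 + w0 * κ := by ring
    have b5 : u * w0 = s0 * u + e0 * u := by rw [← a5]; ring
    omega
  -- B5
  have hσ : ∀ y ∈ VS f (Rs G f P), (t0 : ℚ) / u ≤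
      ∑ w ∈ (VS f (TX G f O X0)).filter (fun w => y ∈ Sw G f P w),
        (1 : ℚ) / (Sw G f P w).card := by
    intro y hy
    rw [mem_VS] at hy
    have h1 := h.degR hy
    have h2 := hDu' y hy
    rw [hm, hκ] at h1
    generalize hD : 1 + ∑ c ∈ Rs G f P, nc G f y c = D at h1 h2
    have hD1 : 1 ≤ D := by omega
    have h3 : ((Ts G f O).filter (fun c => nc G f y c = 1)).card + t0
        ≤ ((TX G f O X0).filter (fun c => nc G f y c = 1)).card + κ := by
      have hsub : TX G f O X0 ⊆ Ts G f O := Finset.filter_subset _ _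
      have e1 : ((Ts G f O).filter (fun c => nc G f y c = 1)) ⊆
          ((TX G f O X0).filter (fun c => nc G f y c = 1)) ∪ (Ts G f O \ TX G f O X0) := by
        intro c hc
        rw [Finset.mem_filter] at hc
        rw [Finset.mem_union, Finset.mem_filter, Finset.mem_sdiff]
        by_cases hcX : c ∈ TX G f O X0
        · exact Or.inl ⟨hcX, hc.2⟩
        · exact Or.inr ⟨hc.1, hcX⟩
      have e2 := (Finset.card_le_card e1).trans (Finset.card_union_le _ _)
      have e3 := Finset.card_sdiff_add_card_eq_card hsub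
      omega
    have h4 : ((TX G f O X0).filter (fun c => nc G f y c = 1)).card
        ≤ ((VS f (TX G f O X0)).filter (fun w => y ∈ Sw G f P w)).card := by
      have e1 : (TX G f O X0).filter (fun c => nc G f y c = 1)
          ⊆ ((VS f (TX G f O X0)).filter (fun w => y ∈ Sw G f P w)).image f := by
        intro c hc
        rw [Finset.mem_filter] at hc
        obtain ⟨x, hx, hxc⟩ := blockR (G := G) (f := f) (P := P) (y := y) hy
          (hTR c (mem_TX.1 hc.1).1)
        rw [Finset.mem_image]
        refine ⟨x, Finset.mem_filter.2 ⟨?_, mem_Sw.2 ⟨hy, hx, ?_⟩⟩, hxc⟩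
        · rw [mem_VS, hxc]; exact hc.1
        · rw [hxc]; exact hc.2
      exact (Finset.card_le_card e1).trans Finset.card_image_le
    have h5 : ∀ w ∈ (VS f (TX G f O X0)).filter (fun w => y ∈ Sw G f P w),
        (1 : ℚ) / D ≤ 1 / (Sw G f P w).card := by
      intro w hw
      rw [Finset.mem_filter, mem_VS] at hw
      have e1 := h.soloSize hX0 hw.1 hw.2
      rw [hD] at e1
      have e2 : 0 < (Sw G f P w).card := Finset.card_pos.2 ⟨y, hw.2⟩
      apply one_div_le_one_div_of_le
      · exact_mod_cast e2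
      · exact_mod_cast e1
    have h6 := Finset.card_nsmul_le_sum _ _ _ h5
    refine le_trans ?_ h6
    rw [nsmul_eq_mul]
    have h7 : t0 + D ≤ u + ((VS f (TX G f O X0)).filter (fun w => y ∈ Sw G f P w)).card := by
      omega
    generalize ((VS f (TX G f O X0)).filter (fun w => y ∈ Sw G f P w)).card = σ at h7
    have hDq : (0 : ℚ) < D := by exact_mod_cast hD1
    have huq : (0 : ℚ) < u := by exact_mod_cast hu1
    have h7q : (t0 : ℚ) + D ≤ u + σ := by exact_mod_cast h7
    have h2q : (D : ℚ) ≤ u := by exact_mod_cast h2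
    have h8q : (u : ℚ) ≤ t0 := by exact_mod_cast hB4.le
    rw [mul_one_div, div_le_div_iff₀ huq hDq]
    nlinarith [mul_nonneg (sub_nonneg.2 h8q) (sub_nonneg.2 h2q)]
  have hsum := Finset.sum_le_sum hσ
  rw [Finset.sum_const, nsmul_eq_mul] at hsum
  have hswap : ∑ y ∈ VS f (Rs G f P),
      ∑ w ∈ (VS f (TX G f O X0)).filter (fun w => y ∈ Sw G f P w),
        (1 : ℚ) / (Sw G f P w).card
      = ∑ w ∈ VS f (TX G f O X0), ∑ y ∈ Sw G f P w, (1 : ℚ) / (Sw G f P w).card := by
    rw [Finset.sum_comm' (t' := VS f (TX G f O X0)) (s' := fun w => Sw G f P w)]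
    intro y w
    rw [Finset.mem_filter]
    constructor
    · rintro ⟨q1, q2, q3⟩; exact ⟨q3, q2⟩
    · rintro ⟨q1, q2⟩; exact ⟨mem_VS.2 (mem_Sw.1 q1).1, q2, q1⟩
  rw [hswap] at hsum
  have hle : ∑ w ∈ VS f (TX G f O X0), ∑ y ∈ Sw G f P w, (1 : ℚ) / (Sw G f P w).card
      ≤ (VS f (TX G f O X0)).card := by
    rw [← nsmul_one, ← Finset.sum_const]
    refine Finset.sum_le_sum (fun w _ => ?_)
    rw [Finset.sum_const, nsmul_eq_mul]
    by_cases h0 : ((Sw G f P w).card : ℚ) = 0
    · rw [h0]; norm_num
    · rw [mul_one_div, div_self h0]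
  have hcardTX : (VS f (TX G f O X0)).card ≤ t0 * s := by
    rw [card_VS, ← ht0, ← smul_eq_mul]
    refine Finset.sum_le_card_nsmul _ _ _ (fun c hc => ?_)
    have h1 := h.near.2.2 c
    rw [if_neg (hX0 c hc).2, if_neg (fun h' => hTR c (mem_TX.1 hc).1
      (by rw [h']; exact h.P_mem))] at h1
    have := h.cap c
    omega
  have hfin : ((VS f (Rs G f P)).card : ℚ) * (t0 / u) ≤ t0 * s := by
    refine (hsum.trans hle).trans ?_
    exact_mod_cast hcardTX
  have huq : (0 : ℚ) < u := by exact_mod_cast hu1
  have ht0q : (0 : ℚ) < t0 := by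
    have : 0 < t0 := by omega
    exact_mod_cast this
  have hVRq : (u : ℚ) * s + 1 ≤ (VS f (Rs G f P)).card := by exact_mod_cast hVR
  have : ((u : ℚ) * s + 1) * (t0 / u) ≤ t0 * s :=
    (mul_le_mul_of_nonneg_right hVRq (by positivity)).trans hfin
  rw [mul_div_assoc', div_le_iff₀ huq] at this
  nlinarith

end count


section final

variable {V C : Type*} [Fintype V] [DecidableEq V] [Fintype C] [DecidableEq C]

theorem exists_fibre (t : C → ℕ) (tot : ∑ c, t c = Fintype.card V) :
    ∃ g : V → C, ∀ b, (cls g b).card = t b := by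
  have h1 : Fintype.card V = Fintype.card (Σ c : C, Fin (t c)) := by
    rw [Fintype.card_sigma]
    simp [tot]
  obtain ⟨e⟩ := Fintype.card_eq.1 h1
  refine ⟨fun v => (e v).1, fun b => ?_⟩
  have h2 : (cls (fun v => (e v).1) b).card
      = (univ.filter (fun p : (Σ c : C, Fin (t c)) => p.1 = b)).card := by
    refine Finset.card_bij (fun v _ => e v) ?_ ?_ ?_
    · intro v hv
      simpa using hv
    · intro a _ b _ hab
      exact e.injective hab
    · intro p hp
      exact ⟨e.symm p, by simpa using hp, by simp⟩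
  rw [h2]
  have h3 : (univ.filter (fun p : (Σ c : C, Fin (t c)) => p.1 = b)).card
      = (univ : Finset (Fin (t b))).card := by
    symm
    refine Finset.card_bij (fun i _ => ⟨b, i⟩) ?_ ?_ ?_
    · intro i _; simp
    · intro i _ j _ hij
      simpa using hij
    · rintro ⟨c, i⟩ hp
      simp only [Finset.mem_filter, Finset.mem_univ, true_and] at hp
      subst hp
      exact ⟨i, Finset.mem_univ _, rfl⟩
  rw [h3]
  simp

theorem exists_max_near {G : SimpleGraph V} {t : C → ℕ} {f : V → C} {P O : C}
    (h : Near G t f P O) : ∃ (f' : V → C) (P' O' : C), Near G t f' P' O' ∧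
      ∀ (f'' : V → C) (P'' O'' : C), Near G t f'' P'' O'' →
        (Ts G f'' O'').card ≤ (Ts G f' O').card := by
  classical
  have hne : (univ.filter (fun p : (V → C) × C × C => Near G t p.1 p.2.1 p.2.2)).Nonempty :=
    ⟨(f, P, O), by simpa using h⟩
  obtain ⟨p, hp1, hp2⟩ := Finset.exists_max_image _ (fun p => (Ts G p.1 p.2.2).card) hne
  simp only [Finset.mem_filter, Finset.mem_univ, true_and] at hp1 hp2
  exact ⟨p.1, p.2.1, p.2.2, hp1, fun f'' P'' O'' h'' => hp2 (f'', P'', O'') h''⟩

theorem exists_exact (k s : ℕ) (t : C → ℕ) (tot : ∑ c, t c = Fintype.card V)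
    (cap : ∀ c, t c ≤ s) (ks : k * s ≤ Fintype.card V) (hC : k ≤ Fintype.card C) :
    ∀ (m : ℕ) (G : SimpleGraph V), (∑ v, (nb G v).card) = m → (∀ v, (nb G v).card + 1 ≤ k) →
      ∃ g : V → C, Pr G g ∧ ∀ b, (cls g b).card = t b := by
  intro m
  induction m using Nat.strong_induction_on with
  | _ m ih =>
    intro G hm hdeg
    by_contra hno
    by_cases hE : ∃ x y, G.Adj x y
    · obtain ⟨x, y, hxy⟩ := hE
      have hsub : ∀ v, nb (G.deleteEdges {s(x, y)}) v ⊆ nb G v := by
        intro v z hz
        rw [mem_nb] at hz ⊢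
        exact (SimpleGraph.deleteEdges_adj.1 hz).1
      have hlt : ∑ v, (nb (G.deleteEdges {s(x, y)}) v).card < m := by
        rw [← hm]
        refine Finset.sum_lt_sum (fun v _ => Finset.card_le_card (hsub v)) ⟨x, Finset.mem_univ x, ?_⟩
        refine Finset.card_lt_card (Finset.ssubset_iff_subset_ne.2 ⟨hsub x, ?_⟩)
        intro h'
        have : y ∈ nb (G.deleteEdges {s(x, y)}) x := by rw [h']; exact mem_nb.2 hxy
        rw [mem_nb, SimpleGraph.deleteEdges_adj] at this
        exact this.2 rfl
      obtain ⟨g, hg1, hg2⟩ := ih _ hlt (G.deleteEdges {s(x, y)}) rfl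
        (fun v => le_trans (Nat.add_le_add_right (Finset.card_le_card (hsub v)) 1) (hdeg v))
      have hg3 : ∀ a b, G.Adj a b → s(a, b) ≠ s(x, y) → g a ≠ g b := by
        intro a b hab hne
        exact hg1 a b (SimpleGraph.deleteEdges_adj.2 ⟨hab, by simpa using hne⟩)
      have hgxy : g x = g y := by
        by_contra hne
        refine hno ⟨g, ?_, hg2⟩
        intro a b hab
        by_cases hs : s(a, b) = s(x, y)
        · rw [Sym2.eq_iff] at hs
          rcases hs with ⟨rfl, rfl⟩ | ⟨rfl, rfl⟩
          · exact hne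
          · exact fun h' => hne h'.symm
        · exact hg3 a b hab hs
      obtain ⟨Z, hZ1, hZ2⟩ := exists_target (G := G) (f := g) hC (hdeg x) hxy (g x)
      have hZ3 : ∀ z, G.Adj x z → g z ≠ Z := by
        intro z hz hzZ
        have := hZ2 z hz hzZ
        subst this
        exact hZ1 (by rw [hgxy, hzZ])
      have hnear : Near G t (Function.update g x Z) Z (g x) := by
        refine ⟨?_, hZ1, ?_⟩
        · intro a b hab
          by_cases hax : a = x
          · subst hax
            have hba : b ≠ a := fun h => by subst h; exact G.irrefl hab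
            rw [Function.update_self, Function.update_of_ne hba]
            exact fun h' => hZ3 b hab h'.symm
          · by_cases hbx : b = x
            · subst hbx
              rw [Function.update_self, Function.update_of_ne hax]
              exact hZ3 a hab.symm
            · rw [Function.update_of_ne hax, Function.update_of_ne hbx]
              refine hg3 a b hab ?_
              intro hs
              rw [Sym2.eq_iff] at hs
              rcases hs with ⟨h1, _⟩ | ⟨_, h2⟩
              · exact hax h1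
              · exact hbx h2
        · intro b
          have := card_update (f := g) (x := x) (e := Z) b
          rw [hg2 b] at this
          exact this
      obtain ⟨f', P', O', hn, hmax⟩ := exists_max_near hnear
      exact Ctx.false (G := G) (k := k) (s := s) (t := t) (f := f') (P := P') (O := O')
        ⟨hdeg, tot, cap, ks, hC, hn, hno, hmax⟩
    · obtain ⟨g, hg⟩ := exists_fibre t tot
      refine hno ⟨g, ?_, hg⟩
      intro a b hab
      exact absurd ⟨a, b, hab⟩ hE

/-- Hajnal-Szemeredi with prescribed class sizes -/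
theorem prescribed (G : SimpleGraph V) (k s : ℕ) (t : C → ℕ)
    (tot : ∑ c, t c = Fintype.card V) (cap : ∀ c, t c ≤ s) (ks : k * s ≤ Fintype.card V)
    (hdeg : ∀ v, (nb G v).card + 1 ≤ k) :
    ∃ g : V → C, Pr G g ∧ ∀ b, (cls g b).card = t b := by
  rcases isEmpty_or_nonempty V with hV | hV
  · obtain ⟨g, hg⟩ := exists_fibre t tot
    exact ⟨g, fun v => (hV.false v).elim, hg⟩
  · have hpos : 0 < Fintype.card V := Fintype.card_pos
    have h1 : Fintype.card V ≤ Fintype.card C * s := by
      rw [← tot]
      have := Finset.sum_le_card_nsmul (univ : Finset C) t s (fun c _ => cap c)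
      simpa using this
    have hC : k ≤ Fintype.card C := by
      by_contra hlt
      rw [not_le] at hlt
      have hs : 0 < s := by
        rcases Nat.eq_zero_or_pos s with h0 | h0
        · subst h0; omega
        · exact h0
      have := Nat.mul_lt_mul_of_pos_right hlt hs
      omega
    exact exists_exact k s t tot cap ks hC _ G rfl hdeg

end final

end Pool.Agent.Lib.MP_f5167d_co.PC
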